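import Pool.Agent.Helper66_BN.Stmts

/-!
# Squad PP, part BN, module BDZ: a central idempotent with vanishing Brauer map at `U` is supported
on elements of defect zero
-/

open scoped BigOperators

noncomputable section

namespace Pool.Agent.PP.BN.H90

open Pool.Agent.Helper51_AWC Pool.Agent.Helper79_WRA

theorem br_apply_of_mem {F G : Type} [Field F] [Group G] {R : Subgroup G} {a : G → F} {t : G}
    (ht : t ∈ Subgroup.centralizer (R : Set G)) : br R a t = a t := by
  rw [br, if_pos ht]

theorem of_br_ne {F G : Type} [Field F] [Group G] {R : Subgroup G} {a : G → F} {t : G}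
    (ht : br R a t ≠ 0) : t ∈ Subgroup.centralizer (R : Set G) ∧ a t ≠ 0 := by
  by_cases h : t ∈ Subgroup.centralizer (R : Set G)
  · rw [br_apply_of_mem h] at ht
    exact ⟨h, ht⟩
  · rw [br, if_neg h] at ht
    exact absurd rfl ht

theorem card_conjS {G : Type} [Group G] (g : G) (P : Subgroup G) :
    Nat.card (conjS g P) = Nat.card P :=
  (Nat.card_congr (P.equivMapOfInjective _ (MulAut.conj g).injective).toEquiv).symm

theorem mem_conjS {G : Type} [Group G] {g : G} {P : Subgroup G} {x : G} :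
    x ∈ conjS g P ↔ g⁻¹ * x * g ∈ P := by
  rw [conjS, Subgroup.mem_map]
  constructor
  · rintro ⟨y, hy, rfl⟩
    have : g⁻¹ * ((MulAut.conj g).toMonoidHom y) * g = y := by
      simp [mul_assoc]
    rw [this]
    exact hy
  · intro h
    exact ⟨_, h, by simp [mul_assoc]⟩

theorem exists_rep (hI : IbnStmt) {ℓ : ℕ} {F : Type} [Field F] (hF : GoodF ℓ F) {H : Type}
    [Group H] [Finite H] {f : H → F} (hf : IsIdem f) (h0 : f ≠ 0) :
    ∃ (n : ℕ) (ρ : H →* Matrix (Fin n) (Fin n) F), IsIrr ρ ∧ ev ρ f ≠ 0 := by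
  by_contra hcon
  push Not at hcon
  obtain ⟨k, hk⟩ := hI ℓ F hF H f (fun n ρ hρ => hcon n ρ hρ)
  rw [Function.iterate_fixed hf.2 k] at hk
  exact h0 hk

theorem step (hN : NlsStmt) (hB : BrmStmt) (hI : IbnStmt) {ℓ : ℕ} [Fact ℓ.Prime]
    {F : Type} [Field F] (hF : GoodF ℓ F) {D : Type} [Group D] [Finite D] {U : Subgroup D}
    (hU : IsPGroup ℓ U)
    (ti : ∀ g x : D, x ∈ U → x ≠ 1 → g * x * g⁻¹ ∈ U → g ∈ Subgroup.normalizer (U : Set D))
    (syl : ∀ P : Subgroup D, IsPGroup ℓ P → ∃ g : D, P ≤ conjS g U) {e : D → F} (he : IsIdem e)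
    (hbr : br U e = 0) :
    ∀ k : ℕ, ∀ (P : Subgroup D) (x : D), Nat.card D - Nat.card P = k → IsPGroup ℓ P → P ≠ ⊥ →
      (∀ y ∈ P, y * x = x * y) → e x ≠ 0 → False := by
  intro k
  induction k using Nat.strong_induction_on with
  | _ k ih =>
    intro P0 x0 hk hP0 hne0 hc0 hx0
    obtain ⟨g, hg⟩ := syl P0 hP0
    obtain ⟨P, hPdef⟩ : ∃ P, P = conjS g⁻¹ P0 := ⟨_, rfl⟩
    obtain ⟨x, hxdef⟩ : ∃ x, x = g⁻¹ * x0 * g := ⟨_, rfl⟩
    have hmem : ∀ y, y ∈ P ↔ g * y * g⁻¹ ∈ P0 := fun y => by
      rw [hPdef, mem_conjS, inv_inv]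
    have hPU : P ≤ U := by
      intro y hy
      have h1 := hg ((hmem y).1 hy)
      rw [mem_conjS] at h1
      have h2 : g⁻¹ * (g * y * g⁻¹) * g = y := by group
      rwa [h2] at h1
    have hcard : Nat.card P = Nat.card P0 := by rw [hPdef, card_conjS]
    have hP : IsPGroup ℓ P := hU.to_le hPU
    have hne : P ≠ ⊥ := by
      intro h
      apply hne0
      rw [← Subgroup.card_eq_one, ← hcard, h, Subgroup.card_bot]
    have hc : ∀ y ∈ P, y * x = x * y := by
      intro y hy
      have h1 := hc0 _ ((hmem y).1 hy)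
      rw [hxdef]
      calc y * (g⁻¹ * x0 * g) = g⁻¹ * (g * y * g⁻¹ * x0) * g := by group
        _ = g⁻¹ * (x0 * (g * y * g⁻¹)) * g := by rw [h1]
        _ = g⁻¹ * x0 * g * y := by group
    have hx : e x ≠ 0 := by
      have h1 := he.1 x0 g⁻¹
      rw [inv_inv] at h1
      rw [hxdef, h1]
      exact hx0
    rcases eq_or_ne P U with hPU' | hPU'
    · have h1 : br U e x = e x := by
        apply br_apply_of_mem
        rw [Subgroup.mem_centralizer_iff]
        intro y hy
        exact hc y (hPU' ▸ hy)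
      rw [hbr] at h1
      exact hx h1.symm
    · -- the normaliser of `P` in `U`
      obtain ⟨q, hqU, hqP, hqN⟩ : ∃ q ∈ U, q ∉ P ∧ q ∈ Subgroup.normalizer (P : Set D) := by
        have hnil : Group.IsNilpotent U := hU.isNilpotent
        have hlt : P.subgroupOf U < ⊤ := by
          rw [lt_top_iff_ne_top]
          intro h
          rw [Subgroup.subgroupOf_eq_top] at h
          exact hPU' (le_antisymm hPU h)
        have h1 := Group.normalizerCondition_of_isNilpotent (G := U) (P.subgroupOf U) hlt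
        obtain ⟨q, hq1, hq2⟩ := SetLike.exists_of_lt h1
        refine ⟨q, q.2, fun h => hq2 (Subgroup.mem_subgroupOf.2 h), ?_⟩
        rw [Subgroup.mem_normalizer_iff] at hq1 ⊢
        intro y
        constructor
        · intro hy
          exact Subgroup.mem_subgroupOf.1 ((hq1 ⟨y, hPU hy⟩).1 (Subgroup.mem_subgroupOf.2 hy))
        · intro hy
          have hyU : y ∈ U := by
            have h2 := U.mul_mem (U.mul_mem (U.inv_mem q.2) (hPU hy)) q.2
            have h3 : (q : D)⁻¹ * (q * y * (q : D)⁻¹) * q = y := by group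
            rwa [h3] at h2
          exact Subgroup.mem_subgroupOf.1 ((hq1 ⟨y, hyU⟩).2 (Subgroup.mem_subgroupOf.2 hy))
      obtain ⟨y0, hy0P, hy01⟩ : ∃ y ∈ P, y ≠ 1 := by
        by_contra hcon
        push Not at hcon
        exact hne ((Subgroup.eq_bot_iff_forall P).2 hcon)
      have hHU : ∀ h ∈ Subgroup.normalizer (P : Set D), h ∈ Subgroup.normalizer (U : Set D) := by
        intro h hh
        refine ti h y0 (hPU hy0P) hy01 (hPU ?_)
        exact (Subgroup.mem_normalizer_iff.1 hh y0).1 hy0P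
      obtain ⟨H, hHdef⟩ : ∃ H, H = Subgroup.normalizer (P : Set D) := ⟨_, rfl⟩
      obtain ⟨Q, hQdef⟩ : ∃ Q, Q = U ⊓ H := ⟨_, rfl⟩
      have hPN : P ≤ H := by rw [hHdef]; exact Subgroup.le_normalizer
      have hPQ : P ≤ Q := by rw [hQdef]; exact le_inf hPU hPN
      have hlt : P < Q := by
        refine lt_of_le_of_ne hPQ fun h => hqP ?_
        rw [h, hQdef]
        exact Subgroup.mem_inf.2 ⟨hqU, hHdef ▸ hqN⟩
      have hCN : Subgroup.centralizer (P : Set D) ≤ H := by
        intro t ht
        rw [hHdef, Subgroup.mem_normalizer_iff]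
        intro y
        rw [Subgroup.mem_centralizer_iff] at ht
        constructor
        · intro hy
          have h1 := ht y hy
          have h2 : t * y * t⁻¹ = y := by rw [← h1]; group
          rwa [h2]
        · intro hy
          have h1 := ht _ hy
          have h2 : t * y * t⁻¹ = y := by
            have h3 : t * y = t * (t * y * t⁻¹) := by
              rw [← h1]; group
            have h4 := mul_left_cancel h3
            exact h4.symm
          rwa [h2] at hy
      obtain ⟨f, hfdef⟩ : ∃ f : H → F, f = fun t : H => br P e t := ⟨_, rfl⟩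
      have hf : IsIdem f := by
        rw [hfdef]
        exact (hB ℓ F hF D P H hP hCN hHdef.le).2.2 e he
      have hxC : x ∈ Subgroup.centralizer (P : Set D) := by
        rw [Subgroup.mem_centralizer_iff]
        exact hc
      have hf0 : f ≠ 0 := by
        intro h
        have h1 : f ⟨x, hCN hxC⟩ = e x := by
          rw [hfdef]
          exact br_apply_of_mem hxC
        rw [h] at h1
        exact hx h1.symm
      obtain ⟨n, ρ, hρ, hev⟩ := exists_rep hI hF hf hf0
      have hQn : (Q.subgroupOf H).Normal := by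
        refine ⟨fun a ha b => ?_⟩
        rw [Subgroup.mem_subgroupOf] at ha ⊢
        rw [hQdef, Subgroup.mem_inf] at ha ⊢
        refine ⟨?_, (b * a * b⁻¹).2⟩
        exact (Subgroup.mem_normalizer_iff.1 (hHU b (hHdef ▸ b.2)) a).1 ha.1
      have hQU : Q ≤ U := by rw [hQdef]; exact inf_le_left
      have hQp : IsPGroup ℓ (Q.subgroupOf H) := by
        intro a
        obtain ⟨k, hk⟩ := hU ⟨((a : H) : D), hQU (Subgroup.mem_subgroupOf.1 a.2)⟩
        have hk' : ((a : H) : D) ^ ℓ ^ k = 1 := congrArg (fun z : U => (z : D)) hk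
        refine ⟨k, ?_⟩
        apply Subtype.ext
        apply Subtype.ext
        exact hk'
      have h2 := ((hN ℓ F hF H (Q.subgroupOf H) hQn hQp n ρ hρ).2 f hf.1).1
      obtain ⟨t, ht⟩ : ∃ t, br (Q.subgroupOf H) f t ≠ 0 := by
        by_contra hcon
        push Not at hcon
        apply hev
        rw [h2]
        simp [ev, hcon]
      obtain ⟨ht1, ht2⟩ := of_br_ne ht
      rw [hfdef] at ht2
      obtain ⟨-, ht3⟩ := of_br_ne ht2
      have hQle : ∀ y ∈ Q, y * (t : D) = t * y := by
        intro y hy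
        have hyH : y ∈ H := by
          rw [hQdef, Subgroup.mem_inf] at hy
          exact hy.2
        have h3 := (Subgroup.mem_centralizer_iff.1 ht1) ⟨y, hyH⟩ (Subgroup.mem_subgroupOf.2 hy)
        exact congrArg Subtype.val h3
      have hc1 : Nat.card P < Nat.card Q := by
        have := Set.Finite.card_lt_card (Set.toFinite (Q : Set D))
          (SetLike.coe_ssubset_coe.2 hlt)
        exact this
      have hc2 : Nat.card Q ≤ Nat.card D := Subgroup.card_le_card_group Q
      exact ih (Nat.card D - Nat.card Q) (by omega) Q t rfl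
        (hU.to_le (by rw [hQdef]; exact inf_le_left))
        (fun h => hne (le_bot_iff.1 (h ▸ hPQ))) hQle ht3

/-- BDZ -/
theorem dze (hN : NlsStmt) (hB : BrmStmt) (hI : IbnStmt) (_ : EigStmt) : DzeStmt := by
  intro ℓ _ F _ hF D _ _ M U T n hR e he hbr x hx hdvd
  have hU : IsPGroup ℓ U := by
    intro a
    obtain ⟨k, hk⟩ := hR.bn.pU ⟨⟨a, hR.UM a.2⟩, Subgroup.mem_subgroupOf.2 a.2⟩
    refine ⟨k, ?_⟩
    apply Subtype.ext
    exact congrArg (fun z => ((z : M) : D)) (congrArg Subtype.val hk)
  obtain ⟨y, hy⟩ := exists_prime_orderOf_dvd_card' ℓ hdvd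
  have hy' : orderOf (y : D) = ℓ := by rw [Subgroup.orderOf_coe, hy]
  have hp := (Fact.out : ℓ.Prime)
  have hcomm : ∀ z ∈ Subgroup.zpowers (y : D), z * x = x * z := by
    have h1 : Subgroup.zpowers (y : D) ≤ Subgroup.centralizer ({x} : Set D) :=
      (Subgroup.zpowers_le).2 y.2
    intro z hz
    have h2 := Subgroup.mem_centralizer_iff.1 (h1 hz) x rfl
    exact h2.symm
  refine step hN hB hI hF hU hR.ti hR.syl he hbr _ (Subgroup.zpowers (y : D)) x rfl ?_ ?_ hcomm hx
  · apply IsPGroup.of_card (n := 1)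
    rw [Nat.card_zpowers, hy', pow_one]
  · intro h
    have h1 := Subgroup.zpowers_eq_bot.1 h
    rw [h1, orderOf_one] at hy'
    exact hp.one_lt.ne hy'

end Pool.Agent.PP.BN.H90
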